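import Mathlib

namespace Pool.Agent.Results.MP_52c232_nt.Example

theorem result :
    ∃ (n : ℕ) (A : Matrix (Fin n) (Fin n) ℤ), 1 ≤ n ∧
      (∀ i j, A i j ≠ -1 ∧ A i j ≠ 0 ∧ A i j ≠ 1) ∧
      A.det = 1 ∧ (A.map (fun x => x ^ 3)).det = 1 := by
  refine ⟨4, !![-3, -2, 3, 2; -3, 4, 2, 4; 4, 3, -3, -4; 5, -6, -6, -3], by norm_num, ?_, ?_, ?_⟩
  · intro i j
    fin_cases i <;> fin_cases j <;> simp
  · simp [Matrix.det_succ_row_zero, Fin.sum_univ_succ, Fin.succAbove]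
  · simp [Matrix.det_succ_row_zero, Fin.sum_univ_succ, Fin.succAbove]

end Pool.Agent.Results.MP_52c232_nt.Example
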